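import Mathlib

/-!
# Subgroup orders of the alternating group of degree five
-/

namespace Pool.Agent.X265.IE

/-- the alternating group of degree five -/
abbrev A5 := alternatingGroup (Fin 5)

lemma card_A5 : Nat.card A5 = 60 := by
  rw [nat_card_alternatingGroup]
  simp [Nat.factorial]

/-- the elements centralising or inverting `c` -/
def NN (c : A5) : Subgroup A5 where
  carrier := {g | g * c * g⁻¹ = c ∨ g * c * g⁻¹ = c⁻¹}
  mul_mem' := by
    rintro a b (ha | ha) (hb | hb)
    · left
      calc a * b * c * (a * b)⁻¹ = a * (b * c * b⁻¹) * a⁻¹ := by group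
        _ = c := by rw [hb, ha]
    · right
      calc a * b * c * (a * b)⁻¹ = a * (b * c * b⁻¹) * a⁻¹ := by group
        _ = (a * c * a⁻¹)⁻¹ := by rw [hb]; group
        _ = c⁻¹ := by rw [ha]
    · right
      calc a * b * c * (a * b)⁻¹ = a * (b * c * b⁻¹) * a⁻¹ := by group
        _ = c⁻¹ := by rw [hb, ha]
    · left
      calc a * b * c * (a * b)⁻¹ = a * (b * c * b⁻¹) * a⁻¹ := by group
        _ = (a * c * a⁻¹)⁻¹ := by rw [hb]; group
        _ = c := by rw [ha, inv_inv]
  one_mem' := by left; simp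
  inv_mem' := by
    rintro a (ha | ha)
    · left
      calc a⁻¹ * c * a⁻¹⁻¹ = a⁻¹ * (a * c * a⁻¹) * a := by rw [ha]; group
        _ = c := by group
    · right
      calc a⁻¹ * c * a⁻¹⁻¹ = (a⁻¹ * (a * c * a⁻¹) * a)⁻¹ := by rw [ha]; group
        _ = c⁻¹ := by group

instance (c : A5) : DecidablePred (· ∈ NN c) := fun g =>
  inferInstanceAs (Decidable (g * c * g⁻¹ = c ∨ g * c * g⁻¹ = c⁻¹))

/-- a three-cycle -/
def c3 : A5 := ⟨Equiv.swap 0 1 * Equiv.swap 1 2, by
  rw [Equiv.Perm.mem_alternatingGroup]; decide⟩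
/-- a five-cycle -/
def c5 : A5 := ⟨Equiv.swap 0 1 * Equiv.swap 1 2 * Equiv.swap 2 3 * Equiv.swap 3 4, by
  rw [Equiv.Perm.mem_alternatingGroup]; decide⟩

lemma card_N3 : Nat.card (NN c3) = 6 := by
  rw [Nat.card_eq_fintype_card]
  decide +kernel

lemma card_N5 : Nat.card (NN c5) = 10 := by
  rw [Nat.card_eq_fintype_card]
  decide +kernel

lemma not_solvable : ¬ Group.IsSolvable A5 := by
  intro h
  have h1 := (IsSimpleGroup.comm_iff_isSolvable (G := A5)).mpr h c3 c5
  revert h1
  decide

/-- the stabiliser of a point -/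
def St : Subgroup A5 := MulAction.stabilizer A5 (0 : Fin 5)

instance : DecidablePred (· ∈ St) := fun g =>
  inferInstanceAs (Decidable ((g : Equiv.Perm (Fin 5)) 0 = 0))

lemma card_St : Nat.card St = 12 := by
  rw [Nat.card_eq_fintype_card]
  decide +kernel

/-- a proper subgroup has index at least five -/
lemma index_ge (K : Subgroup A5) (hK : K ≠ ⊤) : 5 ≤ K.index := by
  by_contra hlt
  push Not at hlt
  let φ := MulAction.toPermHom A5 (A5 ⧸ K)
  have hker : φ.ker = ⊥ := by
    rcases (inferInstance : IsSimpleGroup A5).eq_bot_or_eq_top_of_normal φ.ker inferInstance with h | h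
    · exact h
    · exfalso
      apply hK
      rw [eq_top_iff]
      intro g _
      have hg : g ∈ φ.ker := by rw [h]; trivial
      rw [MonoidHom.mem_ker] at hg
      have h1 : (φ g) ((1 : A5) : A5 ⧸ K) = ((1 : A5) : A5 ⧸ K) := by rw [hg]; rfl
      have h2 : ((g * 1 : A5) : A5 ⧸ K) = ((1 : A5) : A5 ⧸ K) := h1
      rw [mul_one, QuotientGroup.eq] at h2
      simpa using h2
  have hinj : Function.Injective φ := (MonoidHom.ker_eq_bot_iff φ).mp hker
  have hc := Nat.card_le_card_of_injective φ hinj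
  rw [card_A5, Nat.card_perm] at hc
  have h4 : Nat.card (A5 ⧸ K) ≤ 4 := by
    have : Nat.card (A5 ⧸ K) = K.index := rfl
    omega
  have := Nat.factorial_le h4
  have e : Nat.factorial 4 = 24 := rfl
  omega

/-- orders of proper nontrivial subgroups -/
def OO : Finset ℕ := {2, 3, 4, 5, 6, 10, 12}

lemma card_mem_OO (K : Subgroup A5) (h1 : K ≠ ⊥) (h2 : K ≠ ⊤) : Nat.card K ∈ OO := by
  have hi := index_ge K h2
  have hm := K.card_mul_index
  rw [card_A5] at hm
  have hd : Nat.card K ∣ 60 := ⟨_, hm.symm⟩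
  have hne1 : Nat.card K ≠ 1 := fun h => h1 (Subgroup.card_eq_one.mp h)
  have hmem : Nat.card K ∈ Nat.divisors 60 := by
    rw [Nat.mem_divisors]; exact ⟨hd, by norm_num⟩
  have hlt : Nat.card K ≤ 12 := by
    by_contra hcon
    push Not at hcon
    nlinarith
  have key : ∀ n ∈ Nat.divisors 60, n ≠ 1 → n ≤ 12 → n ∈ OO := by decide
  exact key _ hmem hne1 hlt

lemma exists_card (n : ℕ) (hn : n ∈ OO) : ∃ K : Subgroup A5, Nat.card K = n := by
  have h2 : ∃ K : Subgroup A5, Nat.card K = 2 := by
    have := Fact.mk Nat.prime_two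
    have := Sylow.exists_subgroup_card_pow_prime (G := A5) 2 (n := 1) (by rw [card_A5]; norm_num)
    simpa using this
  have h4 : ∃ K : Subgroup A5, Nat.card K = 4 := by
    have := Fact.mk Nat.prime_two
    have := Sylow.exists_subgroup_card_pow_prime (G := A5) 2 (n := 2) (by rw [card_A5]; norm_num)
    simpa using this
  have h3 : ∃ K : Subgroup A5, Nat.card K = 3 := by
    have := Fact.mk Nat.prime_three
    have := Sylow.exists_subgroup_card_pow_prime (G := A5) 3 (n := 1) (by rw [card_A5]; norm_num)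
    simpa using this
  have h5 : ∃ K : Subgroup A5, Nat.card K = 5 := by
    have := Fact.mk Nat.prime_five
    have := Sylow.exists_subgroup_card_pow_prime (G := A5) 5 (n := 1) (by rw [card_A5]; norm_num)
    simpa using this
  simp only [OO, Finset.mem_insert, Finset.mem_singleton] at hn
  rcases hn with rfl | rfl | rfl | rfl | rfl | rfl | rfl
  · exact h2
  · exact h3
  · exact h4
  · exact h5
  · exact ⟨_, card_N3⟩
  · exact ⟨_, card_N5⟩
  · exact ⟨_, card_St⟩

end Pool.Agent.X265.IE
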