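import Pool.Agent.X265.IE.A5

/-!
# Orders of non-normal subgroups of `A5 × Q` for a 2-group `Q`
-/

namespace Pool.Agent.X265.IE

/-- orders of the non-normal subgroups -/
def NNorm (G : Type) [Group G] : Set ℕ :=
  {n | ∃ H : Subgroup G, Nat.card H = n ∧ ¬ H.Normal}

variable {Q : Type} [Group Q]

/-- the part of `H` inside the second factor -/
def DD (H : Subgroup (A5 × Q)) : Subgroup Q := H.comap (MonoidHom.inr A5 Q)

/-- the part of `H` inside the first factor -/
def LL (H : Subgroup (A5 × Q)) : Subgroup A5 := H.comap (MonoidHom.inl A5 Q)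

/-- the projection of `H` to the first factor -/
def KK (H : Subgroup (A5 × Q)) : Subgroup A5 := H.map (MonoidHom.fst A5 Q)

lemma card_eq (H : Subgroup (A5 × Q)) : Nat.card H = Nat.card (KK H) * Nat.card (DD H) := by
  let φ : H →* A5 := (MonoidHom.fst A5 Q).comp H.subtype
  have h1 : Nat.card H = Nat.card φ.range * Nat.card φ.ker := by
    rw [← Nat.card_congr (QuotientGroup.quotientKerEquivRange φ).toEquiv]
    exact Subgroup.card_eq_card_quotient_mul_card_subgroup φ.ker
  have h2 : φ.range = KK H := by
    show ((MonoidHom.fst A5 Q).comp H.subtype).range = _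
    rw [MonoidHom.range_comp, Subgroup.range_subtype]
    rfl
  have h3 : Nat.card φ.ker = Nat.card (DD H) := by
    apply Nat.card_congr
    refine ⟨fun x => ⟨x.1.1.2, ?_⟩, fun q => ⟨⟨(1, q.1), q.2⟩, rfl⟩, ?_, ?_⟩
    · have hx : x.1.1.1 = 1 := x.2
      show ((1 : A5), x.1.1.2) ∈ H
      have : ((1 : A5), x.1.1.2) = x.1.1 := Prod.ext hx.symm rfl
      rw [this]
      exact x.1.2
    · intro x
      apply Subtype.ext
      apply Subtype.ext
      exact Prod.ext (show (1 : A5) = x.1.1.1 from (show x.1.1.1 = 1 from x.2).symm) rfl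
    · intro q
      rfl
  rw [h1, h2, h3]

lemma card_prod (K : Subgroup A5) (D : Subgroup Q) :
    Nat.card (K.prod D) = Nat.card K * Nat.card D := by
  rw [Nat.card_congr (Subgroup.prodEquiv K D).toEquiv, Nat.card_prod]

/-- description of the non-normal orders -/
lemma NNorm_prod [Finite Q] {a : ℕ} (hQ : Nat.card Q = 2 ^ a) (n : ℕ) :
    n ∈ NNorm (A5 × Q) ↔
      (∃ κ ∈ OO, ∃ i ≤ a, n = κ * 2 ^ i) ∨ n ∈ NNorm Q ∨ ∃ m ∈ NNorm Q, n = 60 * m := by
  have h2 := Fact.mk Nat.prime_two
  constructor
  · rintro ⟨H, rfl, hH⟩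
    rw [card_eq]
    have hD : ∃ i ≤ a, Nat.card (DD H) = 2 ^ i := by
      have : Nat.card (DD H) ∣ 2 ^ a := by rw [← hQ]; exact Subgroup.card_subgroup_dvd_card _
      exact (Nat.dvd_prime_pow Nat.prime_two).mp this
    by_cases hK1 : KK H = ⊥
    · right; left
      refine ⟨DD H, ?_, ?_⟩
      · rw [hK1, Subgroup.card_bot, one_mul]
      · intro hn
        apply hH
        have hform : ∀ x : A5 × Q, x ∈ H ↔ x.1 = 1 ∧ x.2 ∈ DD H := by
          intro x
          constructor
          · intro hx
            have h1 : x.1 ∈ KK H := ⟨x, hx, rfl⟩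
            rw [hK1, Subgroup.mem_bot] at h1
            refine ⟨h1, ?_⟩
            show ((1 : A5), x.2) ∈ H
            rw [← h1]
            exact hx
          · rintro ⟨h1, h2⟩
            have : ((1 : A5), x.2) ∈ H := h2
            rw [← h1] at this
            exact this
        refine ⟨fun x hx g => ?_⟩
        rw [hform] at hx ⊢
        refine ⟨?_, ?_⟩
        · show g.1 * x.1 * g.1⁻¹ = 1
          rw [hx.1]; group
        · exact hn.conj_mem _ hx.2 g.2
    · by_cases hK2 : KK H = ⊤
      · have hLn : (LL H).Normal := by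
          refine ⟨fun l hl g => ?_⟩
          have hg : g ∈ KK H := by rw [hK2]; trivial
          obtain ⟨x, hx, rfl⟩ := hg
          have h3 : x * (l, 1) * x⁻¹ ∈ H := H.mul_mem (H.mul_mem hx hl) (H.inv_mem hx)
          have h4 : x * ((l : A5), (1 : Q)) * x⁻¹ = (x.1 * l * x.1⁻¹, 1) := by
            apply Prod.ext
            · rfl
            · show x.2 * 1 * x.2⁻¹ = 1
              group
          rw [h4] at h3
          exact h3
        have hL : LL H = ⊤ := by
          rcases (inferInstance : IsSimpleGroup A5).eq_bot_or_eq_top_of_normal _ hLn with h | h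
          · exfalso
            let ψ : H →* Q := (MonoidHom.snd A5 Q).comp H.subtype
            have hinj : Function.Injective ψ := by
              rw [injective_iff_map_eq_one]
              intro x hx
              have hx2 : x.1.2 = 1 := hx
              have h5 : x.1.1 ∈ LL H := by
                show (x.1.1, (1 : Q)) ∈ H
                rw [← hx2]
                exact x.2
              rw [h, Subgroup.mem_bot] at h5
              exact Subtype.ext (Prod.ext h5 hx2)
            have h6 : Nat.card H ∣ Nat.card Q := Subgroup.card_dvd_of_injective ψ hinj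
            rw [card_eq, hK2, Subgroup.card_top, card_A5, hQ] at h6
            have h7 : 3 ∣ 2 ^ a := (Dvd.intro (20 * Nat.card (DD H)) (by ring)).trans h6
            have := Nat.Prime.dvd_of_dvd_pow Nat.prime_three h7
            omega
          · exact h
        right; right
        refine ⟨Nat.card (DD H), ⟨DD H, rfl, ?_⟩, ?_⟩
        · intro hn
          apply hH
          have hform : ∀ x : A5 × Q, x ∈ H ↔ x.2 ∈ DD H := by
            intro x
            have h8 : (x.1, (1 : Q)) ∈ H := by
              have : x.1 ∈ LL H := by rw [hL]; trivial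
              exact this
            have h9 : (x.1, (1 : Q)) * ((1 : A5), x.2) = x := by
              apply Prod.ext
              · exact mul_one _
              · exact one_mul _
            have h10 : ((1 : A5), x.2) = (x.1, (1 : Q))⁻¹ * x := by
              rw [eq_inv_mul_iff_mul_eq]; exact h9
            constructor
            · intro hx
              show ((1 : A5), x.2) ∈ H
              rw [h10]
              exact H.mul_mem (H.inv_mem h8) hx
            · intro hx
              rw [← h9]
              exact H.mul_mem h8 hx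
          refine ⟨fun x hx g => ?_⟩
          rw [hform] at hx ⊢
          exact hn.conj_mem _ hx g.2
        · rw [hK2, Subgroup.card_top, card_A5]
      · left
        obtain ⟨i, hi, hi'⟩ := hD
        exact ⟨_, card_mem_OO _ hK1 hK2, i, hi, by rw [hi']⟩
  · rintro (⟨κ, hκ, i, hi, rfl⟩ | ⟨D, rfl, hD⟩ | ⟨m, ⟨D, rfl, hD⟩, rfl⟩)
    · obtain ⟨K, hK⟩ := exists_card κ hκ
      obtain ⟨D, hD⟩ := Sylow.exists_subgroup_card_pow_prime (G := Q) 2 (n := i) (by
        rw [hQ]; exact pow_dvd_pow 2 hi)
      refine ⟨K.prod D, by rw [card_prod, hK, hD], ?_⟩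
      intro hn
      have hKn : K.Normal := by
        refine ⟨fun k hk g => ?_⟩
        have := hn.conj_mem (k, 1) ⟨hk, D.one_mem⟩ (g, 1)
        exact this.1
      rcases (inferInstance : IsSimpleGroup A5).eq_bot_or_eq_top_of_normal _ hKn with h | h
      · rw [h, Subgroup.card_bot] at hK
        rw [← hK] at hκ
        revert hκ
        decide
      · rw [h, Subgroup.card_top, card_A5] at hK
        rw [← hK] at hκ
        revert hκ
        decide
    · refine ⟨(⊥ : Subgroup A5).prod D, by rw [card_prod, Subgroup.card_bot, one_mul], ?_⟩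
      intro hn
      apply hD
      refine ⟨fun k hk g => ?_⟩
      have := hn.conj_mem (1, k) ⟨Subgroup.one_mem _, hk⟩ (1, g)
      exact this.2
    · refine ⟨(⊤ : Subgroup A5).prod D, by rw [card_prod, Subgroup.card_top, card_A5], ?_⟩
      intro hn
      apply hD
      refine ⟨fun k hk g => ?_⟩
      have := hn.conj_mem (1, k) ⟨Subgroup.one_mem _, hk⟩ (1, g)
      exact this.2

/-- the main part of the set of orders -/
def SS (a : ℕ) : Finset ℕ :=
  ((Finset.Icc 1 (a + 2)).image (fun i => 2 ^ i) ∪ (Finset.range (a + 3)).image (fun i => 3 * 2 ^ i)) ∪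
    (Finset.range (a + 2)).image (fun i => 5 * 2 ^ i)

lemma mem_SS (a n : ℕ) : n ∈ SS a ↔ ∃ κ ∈ OO, ∃ i ≤ a, n = κ * 2 ^ i := by
  simp only [SS, OO, Finset.mem_union, Finset.mem_image, Finset.mem_Icc, Finset.mem_range,
    Finset.mem_insert, Finset.mem_singleton, exists_eq_or_imp, exists_eq_left]
  constructor
  · rintro ((⟨i, ⟨h1, h2⟩, rfl⟩ | ⟨i, h, rfl⟩) | ⟨i, h, rfl⟩)
    · by_cases h3 : i ≤ a + 1
      · left
        obtain ⟨j, rfl⟩ : ∃ j, i = j + 1 := ⟨i - 1, by omega⟩
        exact ⟨j, by omega, by ring⟩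
      · right; right; left
        have : i = a + 2 := by omega
        subst this
        exact ⟨a, le_refl _, by ring⟩
    · by_cases h3 : i ≤ a
      · right; left; exact ⟨i, h3, rfl⟩
      · by_cases h4 : i = a + 1
        · subst h4
          right; right; right; right; left
          exact ⟨a, le_refl _, by ring⟩
        · have : i = a + 2 := by omega
          subst this
          right; right; right; right; right; right
          exact ⟨a, le_refl _, by ring⟩
    · by_cases h3 : i ≤ a
      · right; right; right; left; exact ⟨i, h3, rfl⟩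
      · have : i = a + 1 := by omega
        subst this
        right; right; right; right; right; left
        exact ⟨a, le_refl _, by ring⟩
  · rintro (⟨i, h, rfl⟩ | ⟨i, h, rfl⟩ | ⟨i, h, rfl⟩ | ⟨i, h, rfl⟩ | ⟨i, h, rfl⟩ | ⟨i, h, rfl⟩ | ⟨i, h, rfl⟩)
    · left; left; exact ⟨i + 1, by omega, by ring⟩
    · left; right; exact ⟨i, by omega, rfl⟩
    · left; left; exact ⟨i + 2, by omega, by ring⟩
    · right; exact ⟨i, by omega, rfl⟩
    · left; right; exact ⟨i + 1, by omega, by ring⟩
    · right; exact ⟨i + 1, by omega, by ring⟩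
    · left; right; exact ⟨i + 2, by omega, by ring⟩

lemma pow2_mod3 (i : ℕ) : ¬ 3 ∣ 2 ^ i := fun h => by
  have := Nat.Prime.dvd_of_dvd_pow Nat.prime_three h
  omega

lemma pow2_mod5 (i : ℕ) : ¬ 5 ∣ 2 ^ i := fun h => by
  have := Nat.Prime.dvd_of_dvd_pow Nat.prime_five h
  omega

lemma not_15 {a n : ℕ} (h : n ∈ SS a) : ¬ 15 ∣ n := by
  simp only [SS, Finset.mem_union, Finset.mem_image] at h
  intro h15
  have h3 : 3 ∣ n := (by norm_num : 3 ∣ 15).trans h15
  have h5 : 5 ∣ n := (by norm_num : 5 ∣ 15).trans h15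
  rcases h with (⟨i, -, rfl⟩ | ⟨i, -, rfl⟩) | ⟨i, -, rfl⟩
  · exact pow2_mod3 i h3
  · rcases (Nat.Prime.dvd_mul Nat.prime_five).mp h5 with h | h
    · omega
    · exact pow2_mod5 i h
  · rcases (Nat.Prime.dvd_mul Nat.prime_three).mp h3 with h | h
    · omega
    · exact pow2_mod3 i h

lemma card_SS (a : ℕ) : (SS a).card = 3 * a + 7 := by
  have hinj : Function.Injective (fun i : ℕ => 2 ^ i) := Nat.pow_right_injective (le_refl 2)
  have hinj3 : Function.Injective (fun i : ℕ => 3 * 2 ^ i) := fun i j h =>
    hinj (Nat.eq_of_mul_eq_mul_left (by norm_num) h)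
  have hinj5 : Function.Injective (fun i : ℕ => 5 * 2 ^ i) := fun i j h =>
    hinj (Nat.eq_of_mul_eq_mul_left (by norm_num) h)
  unfold SS
  rw [Finset.card_union_of_disjoint, Finset.card_union_of_disjoint,
    Finset.card_image_of_injective _ hinj, Finset.card_image_of_injective _ hinj3,
    Finset.card_image_of_injective _ hinj5, Nat.card_Icc, Finset.card_range, Finset.card_range]
  · omega
  · rw [Finset.disjoint_left]
    intro n h1 h2
    simp only [Finset.mem_image] at h1 h2
    obtain ⟨i, -, rfl⟩ := h1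
    obtain ⟨j, -, hj⟩ := h2
    exact pow2_mod3 i ⟨_, hj.symm⟩
  · rw [Finset.disjoint_left]
    intro n h1 h2
    simp only [Finset.mem_union, Finset.mem_image] at h1 h2
    obtain ⟨j, -, rfl⟩ := h2
    rcases h1 with ⟨i, -, h⟩ | ⟨i, -, h⟩
    · exact pow2_mod5 i ⟨_, h⟩
    · have h5 : 5 ∣ 3 * 2 ^ i := ⟨_, h⟩
      rcases (Nat.Prime.dvd_mul Nat.prime_five).mp h5 with h | h
      · omega
      · exact pow2_mod5 i h

/-- final count -/
lemma ncard_eq [Finite Q] {a : ℕ} (hQ : Nat.card Q = 2 ^ a) (E : Finset ℕ)
    (hE : NNorm Q = E) (hE2 : E ⊆ SS a) :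
    (NNorm (A5 × Q)).ncard = 3 * a + 7 + E.card := by
  have h1 : NNorm (A5 × Q) = ((SS a ∪ E.image (fun m => 60 * m) : Finset ℕ) : Set ℕ) := by
    ext n
    rw [NNorm_prod hQ, ← mem_SS, hE]
    simp only [Finset.coe_union, Set.mem_union, Finset.mem_coe, Finset.coe_image, Set.mem_image]
    constructor
    · rintro (h | h | ⟨m, h, rfl⟩)
      · exact Or.inl h
      · exact Or.inl (hE2 h)
      · exact Or.inr ⟨m, h, rfl⟩
    · rintro (h | ⟨m, h, rfl⟩)
      · exact Or.inl h
      · exact Or.inr (Or.inr ⟨m, h, rfl⟩)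
  rw [h1, Set.ncard_coe_finset, Finset.card_union_of_disjoint, card_SS,
    Finset.card_image_of_injective]
  · intro i j h
    exact Nat.eq_of_mul_eq_mul_left (by norm_num) h
  · rw [Finset.disjoint_left]
    intro n h1 h2
    simp only [Finset.mem_image] at h2
    obtain ⟨m, -, rfl⟩ := h2
    exact not_15 h1 ⟨4 * m, by ring⟩

end Pool.Agent.X265.IE
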