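import Pool.Agent.X265.IE.Prod

/-!
# A family of 2-groups with few orders of non-normal subgroups
-/

namespace Pool.Agent.X265.IE

/-- the modular 2-group of order `2 ^ (n + 3)` -/
@[ext] structure PP (n : ℕ) where
  /-- cyclic part -/
  x : ZMod (2 ^ (n + 2))
  /-- top part -/
  e : ZMod 2

namespace PP

variable {n : ℕ}

/-- the central element of order two of the cyclic part -/
def w (n : ℕ) : ZMod (2 ^ (n + 2)) := 2 ^ (n + 1)

lemma two_w : w n + w n = 0 := by
  have h : ((2 ^ (n + 2) : ℕ) : ZMod (2 ^ (n + 2))) = 0 := ZMod.natCast_self _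
  unfold w
  push_cast at h
  rw [← two_mul, ← pow_succ', h]

/-- the action -/
def tw (e : ZMod 2) (y : ZMod (2 ^ (n + 2))) : ZMod (2 ^ (n + 2)) :=
  if e = 0 then y else (1 + w n) * y

lemma w_sq : w n * w n = 0 := by
  have h : ((2 ^ (n + 2) : ℕ) : ZMod (2 ^ (n + 2))) = 0 := ZMod.natCast_self _
  push_cast at h
  unfold w
  have : (2 : ZMod (2 ^ (n + 2))) ^ (n + 1) * 2 ^ (n + 1) = 2 ^ (n + 2) * 2 ^ n := by ring
  rw [this, h, zero_mul]

lemma tw_tw (e d : ZMod 2) (y : ZMod (2 ^ (n + 2))) : tw e (tw d y) = tw (e + d) y := by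
  obtain rfl | rfl : e = 0 ∨ e = 1 := by revert e; decide
  · simp [tw]
  · obtain rfl | rfl : d = 0 ∨ d = 1 := by revert d; decide
    · simp [tw]
    · have h2 : (1 : ZMod 2) + 1 = 0 := by decide
      simp only [tw, h2, if_true, one_ne_zero, if_false]
      have h := two_w (n := n)
      have h' := w_sq (n := n)
      linear_combination y * h + y * h'

lemma tw_add (e : ZMod 2) (y z : ZMod (2 ^ (n + 2))) : tw e (y + z) = tw e y + tw e z := by
  unfold tw; split_ifs <;> ring

lemma tw_zero' (y : ZMod (2 ^ (n + 2))) : tw 0 y = y := by simp [tw]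

lemma tw_neg (e : ZMod 2) (y : ZMod (2 ^ (n + 2))) : tw e (-y) = - tw e y := by
  unfold tw; split_ifs <;> ring

instance : Mul (PP n) := ⟨fun a b => ⟨a.x + tw a.e b.x, a.e + b.e⟩⟩
instance : One (PP n) := ⟨⟨0, 0⟩⟩
instance : Inv (PP n) := ⟨fun a => ⟨-tw a.e a.x, a.e⟩⟩

@[simp] lemma mul_x (a b : PP n) : (a * b).x = a.x + tw a.e b.x := rfl
@[simp] lemma mul_e (a b : PP n) : (a * b).e = a.e + b.e := rfl
@[simp] lemma one_x : (1 : PP n).x = 0 := rfl
@[simp] lemma one_e : (1 : PP n).e = 0 := rfl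
@[simp] lemma inv_x (a : PP n) : (a⁻¹).x = -tw a.e a.x := rfl
@[simp] lemma inv_e (a : PP n) : (a⁻¹).e = a.e := rfl

instance : Group (PP n) := Group.ofLeftAxioms
  (by
    intro a b c
    ext
    · simp only [mul_x, mul_e, tw_add, tw_tw]; ring
    · simp only [mul_e]; ring)
  (by intro a; ext <;> simp [tw_zero'])
  (by
    intro a
    ext
    · simp
    · simp only [mul_e, inv_e, one_e]
      exact CharTwo.add_self_eq_zero _)

/-- equivalence with the product -/
def equivProd : PP n ≃ ZMod (2 ^ (n + 2)) × ZMod 2 :=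
  ⟨fun a => (a.x, a.e), fun p => ⟨p.1, p.2⟩, fun _ => rfl, fun _ => rfl⟩

instance : Finite (PP n) := Finite.of_equiv _ equivProd.symm

lemma natCard : Nat.card (PP n) = 2 ^ (n + 3) := by
  rw [Nat.card_congr equivProd, Nat.card_prod, Nat.card_zmod, Nat.card_zmod]
  ring

lemma w_mul (y : ZMod (2 ^ (n + 2))) : w n * y = 0 ∨ w n * y = w n := by
  have hy : ((y.val : ℕ) : ZMod (2 ^ (n + 2))) = y := ZMod.natCast_zmod_val y
  rcases Nat.even_or_odd' y.val with ⟨k, hk | hk⟩
  · left
    rw [← hy, hk]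
    push_cast
    linear_combination (k : ZMod (2 ^ (n + 2))) * two_w (n := n)
  · right
    rw [← hy, hk]
    push_cast
    linear_combination (k : ZMod (2 ^ (n + 2))) * two_w (n := n)

lemma tw_sub (e : ZMod 2) (y : ZMod (2 ^ (n + 2))) : tw e y = y ∨ tw e y = y + w n := by
  unfold tw
  split_ifs
  · left; rfl
  · rcases w_mul y with h | h
    · left; linear_combination h
    · right; linear_combination h

lemma w_ne : w n ≠ 0 := by
  intro h
  have h1 : ((2 ^ (n + 1) : ℕ) : ZMod (2 ^ (n + 2))) = 0 := by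
    push_cast; exact h
  rw [ZMod.natCast_eq_zero_iff] at h1
  have h2 := Nat.le_of_dvd (by positivity) h1
  have h3 : 2 ^ (n + 1) < 2 ^ (n + 2) := Nat.pow_lt_pow_right (by norm_num) (by omega)
  omega

/-- a nonzero element has a multiple equal to `w` -/
lemma exists_mul (x : ZMod (2 ^ (n + 2))) (hx : x ≠ 0) : ∃ k : ℕ, (k : ZMod (2 ^ (n + 2))) * x = w n := by
  have hy : ((x.val : ℕ) : ZMod (2 ^ (n + 2))) = x := ZMod.natCast_zmod_val x
  have hv : x.val ≠ 0 := by
    intro h; apply hx; rw [← hy, h]; simp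
  obtain ⟨j, o, ho, hj⟩ := Nat.exists_eq_pow_mul_and_not_dvd hv 2 (by norm_num)
  have hlt : x.val < 2 ^ (n + 2) := ZMod.val_lt x
  have hj2 : j ≤ n + 1 := by
    by_contra hcon
    push Not at hcon
    have h1 : 2 ^ (n + 2) ≤ 2 ^ j := Nat.pow_le_pow_right (by norm_num) (by omega)
    have h2 : 0 < o := Nat.pos_of_ne_zero (by rintro rfl; simp at ho)
    have h3 : 2 ^ j ≤ 2 ^ j * o := Nat.le_mul_of_pos_right _ h2
    omega
  obtain ⟨t, ht⟩ : ∃ t, o = 2 * t + 1 := by
    rcases Nat.even_or_odd' o with ⟨t, h | h⟩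
    · exact absurd ⟨t, h⟩ ho
    · exact ⟨t, h⟩
  refine ⟨2 ^ (n + 1 - j), ?_⟩
  have e1 : 2 ^ (n + 1 - j) * x.val = 2 ^ (n + 1) * (2 * t + 1) := by
    rw [hj, ht, ← mul_assoc, ← pow_add]
    congr 2
    omega
  have e2 := congrArg (fun m : ℕ => (m : ZMod (2 ^ (n + 2)))) e1
  push_cast at e2
  rw [hy] at e2
  push_cast
  rw [e2]
  have := two_w (n := n)
  unfold w at *
  linear_combination (t : ZMod (2 ^ (n + 2))) * this

/-- the central involution -/
def zz (n : ℕ) : PP n := ⟨w n, 0⟩

lemma conj_eq (g h : PP n) : g * h * g⁻¹ = h ∨ g * h * g⁻¹ = zz n * h := by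
  have key : (g * h * g⁻¹).x = h.x ∨ (g * h * g⁻¹).x = w n + h.x := by
    have e1 : (g * h * g⁻¹).x = g.x + tw g.e h.x - tw (g.e + h.e) (tw g.e g.x) := by
      simp only [mul_x, mul_e, inv_x, inv_e, tw_neg]; ring
    rw [e1, tw_tw]
    have e2 : g.e + h.e + g.e = h.e := by
      have := CharTwo.add_self_eq_zero g.e
      linear_combination this
    rw [e2]
    have hw := two_w (n := n)
    rcases tw_sub g.e h.x with h1 | h1 <;> rcases tw_sub h.e g.x with h2 | h2 <;> rw [h1, h2]
    · left; ring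
    · right; linear_combination -hw
    · right; ring
    · left; ring
  have e3 : (g * h * g⁻¹).e = h.e := by
    simp only [mul_e, inv_e]
    have := CharTwo.add_self_eq_zero g.e
    linear_combination this
  rcases key with h1 | h1
  · left; ext
    · exact h1
    · exact e3
  · right; ext
    · rw [h1, mul_x]; simp [zz, tw_zero']
    · rw [e3, mul_e]; simp [zz]

lemma pow_zero_e (a : PP n) (ha : a.e = 0) (k : ℕ) : a ^ k = ⟨k * a.x, 0⟩ := by
  induction k with
  | zero => ext <;> simp
  | succ k ih =>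
    rw [pow_succ, ih]
    ext
    · simp [tw_zero']; ring
    · simp [ha]

/-- a non-central involution -/
def yy (n : ℕ) : PP n := ⟨0, 1⟩

lemma yy_sq : yy n * yy n = 1 := by
  ext
  · simp [yy, tw]
  · show (1 : ZMod 2) + 1 = 0
    decide

/-- the subgroup generated by the non-central involution -/
def YY (n : ℕ) : Subgroup (PP n) where
  carrier := {a | a = 1 ∨ a = yy n}
  mul_mem' := by
    rintro a b (rfl | rfl) (rfl | rfl)
    · left; simp
    · right; simp
    · right; simp
    · left; exact yy_sq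
  one_mem' := Or.inl rfl
  inv_mem' := by
    rintro a (rfl | rfl)
    · left; simp
    · right; exact inv_eq_of_mul_eq_one_left yy_sq

lemma yy_ne : yy n ≠ 1 := by
  intro h
  have : (1 : ZMod 2) = 0 := congrArg PP.e h
  exact absurd this (by decide)

lemma card_YY : Nat.card (YY n) = 2 := by
  have h : ((YY n : Subgroup (PP n)) : Set (PP n)) = {1, yy n} := by
    ext a; rfl
  have h2 : Nat.card (YY n) = Set.ncard ((YY n : Subgroup (PP n)) : Set (PP n)) := rfl
  rw [h2, h, Set.ncard_pair yy_ne.symm]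

lemma conj_yy : (⟨1, 0⟩ : PP n) * yy n * (⟨1, 0⟩ : PP n)⁻¹ ≠ 1 ∧
    (⟨1, 0⟩ : PP n) * yy n * (⟨1, 0⟩ : PP n)⁻¹ ≠ yy n := by
  constructor
  · intro h
    have : (0 : ZMod 2) + 1 + 0 = 0 := congrArg PP.e h
    exact absurd this (by decide)
  · intro h
    have h1 := congrArg PP.x h
    have h01 : (0 : ZMod 2) + 1 ≠ 0 := by decide
    simp only [mul_x, mul_e, yy, inv_x, tw_zero', tw, if_neg h01] at h1
    simp only [if_true] at h1
    apply w_ne (n := n)
    linear_combination -h1

end PP

/-- orders of non-normal subgroups of `PP n × R` -/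
lemma NNorm_PP (n r : ℕ) (R : Type) [CommGroup R] [Finite R] (hR : Nat.card R = 2 ^ r) :
    NNorm (PP n × R) = ((Finset.Icc 1 (r + 1)).image (fun i => 2 ^ i) : Finset ℕ) := by
  have h2 := Fact.mk Nat.prime_two
  ext m
  simp only [Finset.coe_image, Set.mem_image, Finset.mem_coe, Finset.mem_Icc]
  constructor
  · rintro ⟨H, rfl, hH⟩
    have hz : (PP.zz n, (1 : R)) ∉ H := by
      intro hz
      apply hH
      refine ⟨fun h hh g => ?_⟩
      have hg2 : g.2 * h.2 * g.2⁻¹ = h.2 := by
        rw [mul_comm g.2 h.2, mul_inv_cancel_right]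
      rcases PP.conj_eq g.1 h.1 with h1 | h1
      · have : g * h * g⁻¹ = h := Prod.ext h1 hg2
        rw [this]; exact hh
      · have : g * h * g⁻¹ = (PP.zz n, (1 : R)) * h := by
          apply Prod.ext
          · exact h1
          · show g.2 * h.2 * g.2⁻¹ = 1 * h.2
            rw [hg2, one_mul]
        rw [this]; exact H.mul_mem hz hh
    let ψ : H →* Multiplicative (ZMod 2) × R :=
      { toFun := fun h => (Multiplicative.ofAdd h.1.1.e, h.1.2)
        map_one' := rfl
        map_mul' := fun a b => rfl }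
    have hinj : Function.Injective ψ := by
      rw [injective_iff_map_eq_one]
      intro h hh
      have he : h.1.1.e = 0 := congrArg Prod.fst hh
      have hr : h.1.2 = 1 := congrArg Prod.snd hh
      by_contra hne
      have hx : h.1.1.x ≠ 0 := by
        intro hx
        apply hne
        apply Subtype.ext
        apply Prod.ext
        · ext
          · exact hx
          · exact he
        · exact hr
      obtain ⟨k, hk⟩ := PP.exists_mul _ hx
      apply hz
      have : (PP.zz n, (1 : R)) = h.1 ^ k := by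
        apply Prod.ext
        · show PP.zz n = h.1.1 ^ k
          rw [PP.pow_zero_e _ he, hk]; rfl
        · show 1 = h.1.2 ^ k
          rw [hr, one_pow]
      rw [this]
      exact H.pow_mem h.2 k
    have hd : Nat.card H ∣ 2 ^ (r + 1) := by
      have := Subgroup.card_dvd_of_injective ψ hinj
      rw [Nat.card_prod, hR] at this
      have e : Nat.card (Multiplicative (ZMod 2)) = 2 := by
        rw [Nat.card_eq_fintype_card]; rfl
      rw [e] at this
      rw [pow_succ']; exact this
    obtain ⟨i, hi, hi'⟩ := (Nat.dvd_prime_pow Nat.prime_two).mp hd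
    refine ⟨i, ⟨?_, hi⟩, hi'.symm⟩
    by_contra h0
    have : i = 0 := by omega
    subst this
    rw [pow_zero] at hi'
    apply hH
    rw [Subgroup.card_eq_one.mp hi']
    infer_instance
  · rintro ⟨i, ⟨h1, h2⟩, rfl⟩
    obtain ⟨D, hD⟩ := Sylow.exists_subgroup_card_pow_prime (G := R) 2 (n := i - 1) (by
      rw [hR]; exact pow_dvd_pow 2 (by omega))
    refine ⟨(PP.YY n).prod D, ?_, ?_⟩
    · rw [Nat.card_congr (Subgroup.prodEquiv (PP.YY n) D).toEquiv, Nat.card_prod, hD, PP.card_YY,
        ← pow_succ']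
      congr 1
      omega
    · intro hn
      have := hn.conj_mem (PP.yy n, 1) ⟨Or.inr rfl, D.one_mem⟩ ((⟨1, 0⟩ : PP n), 1)
      rcases this.1 with h | h
      · exact PP.conj_yy.1 h
      · exact PP.conj_yy.2 h

lemma NNorm_comm (R : Type) [CommGroup R] : NNorm R = ((∅ : Finset ℕ) : Set ℕ) := by
  ext m
  simp only [Finset.coe_empty, Set.mem_empty_iff_false, iff_false]
  rintro ⟨H, -, hH⟩
  exact hH inferInstance

end Pool.Agent.X265.IE
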